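import Mathlib

/-!
# A maximal ideal of cofinality `𝔠` with a subideal relative to which its cofinality is `ℵ₁`

We prove in ZFC that there are a maximal ideal `I` on `ω` with `cof(I) = 𝔠` and an ideal `J ⊆ I`
with `cof_J(I) = ℵ₁`.

Proof. Let `(A i)` be an independent family indexed by the disjoint union of `ω₁` and the set of
the reals, and let `N` be an ideal which is maximal among the ideals containing no Boolean
combination (cell) of the family. Every set which is not in `N` includes a cell modulo `N`. The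
cells have the countable chain condition, and so each set of natural numbers is decided, modulo
`N`, by countably many indices. Let `u` be an ultrafilter which extends the dual filter of `N` and
contains all `A i`. For `a < ω₁` there is an ultrafilter `u a` which contains all members of `u`
decided by the indices below `a` (and by the indices which are reals) but does not contain the sets
`A i`, `a ≤ i < ω₁`. Now let `I` be the dual ideal of `u`, and `J` the dual ideal of the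
intersection of `u` and all the `u a`.
-/

set_option autoImplicit false

open Set Cardinal

namespace Pool.Agent.Results.MP_f21612_lc.RelativeCofinality

/-- `I` is an ideal on `ω`: it is closed under subsets and finite unions, contains every finite
set, and does not contain `ω`. -/
def IsIdeal (I : Set (Set ℕ)) : Prop :=
  (∀ A ∈ I, ∀ B, B ⊆ A → B ∈ I) ∧ (∀ A ∈ I, ∀ B ∈ I, A ∪ B ∈ I) ∧
    (∀ A : Set ℕ, A.Finite → A ∈ I) ∧ Set.univ ∉ I

/-- `I` is a maximal ideal on `ω`: no ideal on `ω` properly includes `I`. -/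
def IsMaximalIdeal (I : Set (Set ℕ)) : Prop :=
  IsIdeal I ∧ ∀ I' : Set (Set ℕ), IsIdeal I' → I ⊆ I' → I' = I

/-- `cof(I)`: the least size of a subfamily `B` of `I` such that every member of `I` is included in
some member of `B`. -/
noncomputable def cof (I : Set (Set ℕ)) : Cardinal.{0} :=
  sInf {κ | ∃ B : Set (Set ℕ), B ⊆ I ∧ (∀ X ∈ I, ∃ Y ∈ B, X ⊆ Y) ∧ #B = κ}

/-- `cof_J(I)`: the least size of a subfamily `B` of `I` such that for every `X ∈ I` there is
`Y ∈ B` with `X \ Y ∈ J`. -/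
noncomputable def cofRel (J I : Set (Set ℕ)) : Cardinal.{0} :=
  sInf {κ | ∃ B : Set (Set ℕ), B ⊆ I ∧ (∀ X ∈ I, ∃ Y ∈ B, X \ Y ∈ J) ∧ #B = κ}

/-! ### An independent family -/

section Fam

/-- the members of the independent family, on the countable set `ℕ × Finset (List Bool)` -/
def fam (y : ℕ → Bool) : Set (ℕ × Finset (List Bool)) := {p | (List.range p.1).map y ∈ p.2}

theorem exists_bound (F : Finset (ℕ → Bool)) : ∃ N, ∀ n, N ≤ n → ∀ x ∈ F, ∀ y ∈ F,
    (List.range n).map x = (List.range n).map y → x = y := by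
  classical
  have h1 : ∀ p : (ℕ → Bool) × (ℕ → Bool), ∃ N, ∀ n, N ≤ n →
      (List.range n).map p.1 = (List.range n).map p.2 → p.1 = p.2 := by
    rintro ⟨x, y⟩
    by_cases h : x = y
    · exact ⟨0, fun _ _ _ => h⟩
    · obtain ⟨k, hk⟩ := Function.ne_iff.1 h
      refine ⟨k + 1, fun n hn hxy => absurd ?_ hk⟩
      have h2 := congrArg (fun l : List Bool => l[k]?) hxy
      simp only [List.getElem?_map] at h2
      rw [List.getElem?_range (by omega)] at h2
      simpa using h2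
  choose N hN using h1
  refine ⟨(F ×ˢ F).sup N, fun n hn x hx y hy h => hN (x, y) n ?_ h⟩
  exact (Finset.le_sup (f := N) (Finset.mk_mem_product hx hy)).trans hn

theorem fam_indep (F G : Finset (ℕ → Bool)) (h : Disjoint F G) :
    {p | (∀ y ∈ F, p ∈ fam y) ∧ ∀ y ∈ G, p ∉ fam y}.Infinite := by
  classical
  obtain ⟨N, hN⟩ := exists_bound (F ∪ G)
  refine Set.infinite_of_injective_forall_mem
    (f := fun k : ℕ => ((N + k, F.image fun y : ℕ → Bool => (List.range (N + k)).map y) :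
      ℕ × Finset (List Bool))) ?_ ?_
  · intro k k' h
    have := congrArg Prod.fst h
    simpa using this
  · intro k
    refine ⟨fun y hy => ?_, fun y hy hy' => ?_⟩
    · have h1 : (List.range (N + k)).map y ∈
          F.image fun y : ℕ → Bool => (List.range (N + k)).map y :=
        Finset.mem_image.2 ⟨y, hy, rfl⟩
      exact h1
    · obtain ⟨z, hz, hzy⟩ := Finset.mem_image.1 hy'
      have h1 := hN (N + k) (Nat.le_add_right _ _) z (Finset.mem_union_left _ hz) y
        (Finset.mem_union_right _ hy) hzy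
      exact (Finset.disjoint_left.1 h) hz (h1 ▸ hy)

end Fam

/-! ### Cells -/

section Cells

variable {Λ : Type} (A : Λ → Set ℕ)

/-- the cell given by `F` and `G` -/
def cell (F G : Finset Λ) : Set ℕ := {n | (∀ a ∈ F, n ∈ A a) ∧ ∀ a ∈ G, n ∉ A a}

/-- independence -/
def Indep : Prop := ∀ F G : Finset Λ, Disjoint F G → (cell A F G).Infinite

/-- closed under subsets and unions, contains the finite sets, contains no cell -/
def Small (N : Set (Set ℕ)) : Prop :=
  (∀ X ∈ N, ∀ Y, Y ⊆ X → Y ∈ N) ∧ (∀ X ∈ N, ∀ Y ∈ N, X ∪ Y ∈ N) ∧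
    (∀ X : Set ℕ, X.Finite → X ∈ N) ∧ ∀ F G : Finset Λ, Disjoint F G → cell A F G ∉ N

variable {A}

theorem cell_mono {F F' G G' : Finset Λ} (hF : F ⊆ F') (hG : G ⊆ G') :
    cell A F' G' ⊆ cell A F G := fun _ hn => ⟨fun a ha => hn.1 a (hF ha), fun a ha => hn.2 a (hG ha)⟩

theorem exists_maximal (hA : Indep A) : ∃ N, Small A N ∧ ∀ N', Small A N' → N ⊆ N' → N' = N := by
  have h0 : Small A {X : Set ℕ | X.Finite} :=
    ⟨fun X hX Y hY => Set.Finite.subset hX hY, fun X hX Y hY => Set.Finite.union hX hY,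
      fun X hX => hX, fun F G h => hA F G h⟩
  obtain ⟨N, hN0, hN⟩ := zorn_subset_nonempty {N | Small A N} (by
    intro c hc hchain hne
    refine ⟨⋃₀ c, ?_, fun s hs => subset_sUnion_of_mem hs⟩
    refine ⟨?_, ?_, ?_, ?_⟩
    · rintro X ⟨N, hN, hX⟩ Y hY
      exact ⟨N, hN, (hc hN).1 X hX Y hY⟩
    · rintro X ⟨N, hN, hX⟩ Y ⟨N', hN', hY⟩
      rcases hchain.total hN hN' with h | h
      · exact ⟨N', hN', (hc hN').2.1 X (h hX) Y hY⟩
      · exact ⟨N, hN, (hc hN).2.1 X hX Y (h hY)⟩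
    · intro X hX
      obtain ⟨N, hN⟩ := hne
      exact ⟨N, hN, (hc hN).2.2.1 X hX⟩
    · rintro F G h ⟨N, hN, hX⟩
      exact (hc hN).2.2.2 F G h hX) _ h0
  exact ⟨N, hN.prop, fun N' hN' h => (hN.eq_of_subset hN' h).symm⟩

variable {N : Set (Set ℕ)}

theorem dense_cells (hN : Small A N) (hmax : ∀ N', Small A N' → N ⊆ N' → N' = N)
    {X : Set ℕ} (hX : X ∉ N) : ∃ F G : Finset Λ, Disjoint F G ∧ cell A F G \ X ∈ N := by
  by_contra hcon
  push Not at hcon
  have h1 : Small A {Y | ∃ Z ∈ N, Y ⊆ X ∪ Z} := by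
    refine ⟨?_, ?_, ?_, ?_⟩
    · rintro Y ⟨Z, hZ, hYZ⟩ Y' hY'
      exact ⟨Z, hZ, hY'.trans hYZ⟩
    · rintro Y ⟨Z, hZ, hYZ⟩ Y' ⟨Z', hZ', hYZ'⟩
      refine ⟨Z ∪ Z', hN.2.1 Z hZ Z' hZ', ?_⟩
      rintro n (hn | hn)
      · exact (hYZ hn).imp id fun h => Or.inl h
      · exact (hYZ' hn).imp id fun h => Or.inr h
    · intro Y hY
      exact ⟨Y, hN.2.2.1 Y hY, subset_union_right⟩
    · rintro F G h ⟨Z, hZ, hsub⟩
      refine hcon F G h (hN.1 Z hZ _ ?_)
      rintro n ⟨hn, hn'⟩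
      exact (hsub hn).resolve_left hn'
  have h2 := hmax _ h1 fun Y hY => ⟨Y, hY, subset_union_right⟩
  apply hX
  rw [← h2]
  exact ⟨∅, hN.2.2.1 ∅ Set.finite_empty, subset_union_left⟩

/-- `(F, G)` decides `X` -/
def Decides (A : Λ → Set ℕ) (N : Set (Set ℕ)) (X : Set ℕ) (F G : Finset Λ) : Prop :=
  cell A F G \ X ∈ N ∨ cell A F G ∩ X ∈ N

variable [DecidableEq Λ]

theorem exists_decides (hN : Small A N) (hmax : ∀ N', Small A N' → N ⊆ N' → N' = N)
    (X : Set ℕ) {F G : Finset Λ} (_h : Disjoint F G) :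
    ∃ F' G' : Finset Λ, F ⊆ F' ∧ G ⊆ G' ∧ Disjoint F' G' ∧ Decides A N X F' G' := by
  by_cases hX : cell A F G ∩ X ∈ N
  · exact ⟨F, G, Finset.Subset.refl _, Finset.Subset.refl _, _h, Or.inr hX⟩
  · obtain ⟨F1, G1, h1, h2⟩ := dense_cells hN hmax hX
    have hsub : cell A F1 G1 \ cell A F G ∈ N := by
      refine hN.1 _ h2 _ ?_
      rintro n ⟨hn, hn'⟩
      exact ⟨hn, fun h => hn' h.1⟩
    have h3 : Disjoint F G1 := by
      rw [Finset.disjoint_left]
      intro a ha ha'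
      apply hN.2.2.2 F1 G1 h1
      refine hN.1 _ hsub _ fun n hn => ⟨hn, fun h => ?_⟩
      exact hn.2 a ha' (h.1 a ha)
    have h4 : Disjoint F1 G := by
      rw [Finset.disjoint_left]
      intro a ha ha'
      apply hN.2.2.2 F1 G1 h1
      refine hN.1 _ hsub _ fun n hn => ⟨hn, fun h => ?_⟩
      exact h.2 a ha' (hn.1 a ha)
    refine ⟨F ∪ F1, G ∪ G1, Finset.subset_union_left, Finset.subset_union_left, ?_, Or.inl ?_⟩
    · rw [Finset.disjoint_union_left, Finset.disjoint_union_right, Finset.disjoint_union_right]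
      exact ⟨⟨_h, h3⟩, h4, h1⟩
    · refine hN.1 _ h2 _ ?_
      rintro n ⟨hn, hn'⟩
      exact ⟨cell_mono Finset.subset_union_right Finset.subset_union_right hn,
        fun h => hn' h.2⟩

/-- The indices in `S` decide `X`: every `(F, G)` is compatible with some `(F', G')` which only uses
indices from `S` and decides `X`. -/
def Supp (A : Λ → Set ℕ) (N : Set (Set ℕ)) (S : Set Λ) (X : Set ℕ) : Prop :=
  ∀ F G : Finset Λ, Disjoint F G → ∃ F' G' : Finset Λ, Disjoint F' G' ∧ (F' : Set Λ) ⊆ S ∧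
    (G' : Set Λ) ⊆ S ∧ Disjoint F G' ∧ Disjoint F' G ∧ Decides A N X F' G'

omit [DecidableEq Λ] in
theorem Supp.mono {S S' : Set Λ} (h : S ⊆ S') {X : Set ℕ} (hX : Supp A N S X) : Supp A N S' X := by
  intro F G hFG
  obtain ⟨F', G', h1, h2, h3, h4⟩ := hX F G hFG
  exact ⟨F', G', h1, h2.trans h, h3.trans h, h4⟩

theorem exists_supp (hA : Indep A) (hN : Small A N)
    (hmax : ∀ N', Small A N' → N ⊆ N' → N' = N) (X : Set ℕ) :
    ∃ S : Set Λ, S.Countable ∧ Supp A N S X := by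
  let D : Set (Finset Λ × Finset Λ) := {p | Disjoint p.1 p.2 ∧ Decides A N X p.1 p.2}
  let Inc : Finset Λ × Finset Λ → Finset Λ × Finset Λ → Prop := fun p q =>
    Disjoint (cell A p.1 p.2) (cell A q.1 q.2)
  obtain ⟨𝒜, -, h𝒜⟩ := zorn_subset_nonempty {𝒜 | 𝒜 ⊆ D ∧ 𝒜.Pairwise Inc} (by
    intro c hc hchain hne
    refine ⟨⋃₀ c, ⟨?_, ?_⟩, fun s hs => subset_sUnion_of_mem hs⟩
    · rintro p ⟨s, hs, hp⟩
      exact (hc hs).1 hp
    · exact (Set.pairwise_sUnion hchain.directedOn).2 fun s hs => (hc hs).2)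
    ∅ ⟨empty_subset _, Set.pairwise_empty _⟩
  have hcount : 𝒜.Countable := by
    have h1 : ∀ p ∈ 𝒜, ∃ n, n ∈ cell A p.1 p.2 := fun p hp =>
      (hA p.1 p.2 (h𝒜.prop.1 hp).1).nonempty
    choose! f hf using h1
    refine Set.countable_of_injective_of_countable_image (f := f) ?_ (Set.to_countable _)
    intro p hp q hq hpq
    by_contra hne
    exact Set.disjoint_left.1 (h𝒜.prop.2 hp hq hne) (hf p hp) (hpq ▸ hf q hq)
  refine ⟨⋃ p ∈ 𝒜, ((p.1 : Set Λ) ∪ p.2), hcount.biUnion fun p _ =>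
    (p.1.countable_toSet.union p.2.countable_toSet), ?_⟩
  intro F G hFG
  obtain ⟨F1, G1, hF, hG, h1, h2⟩ := exists_decides hN hmax X hFG
  obtain ⟨p, hp, hcomp⟩ : ∃ p ∈ 𝒜, ¬ Inc (F1, G1) p := by
    by_contra hcon
    push Not at hcon
    have hins : insert (F1, G1) 𝒜 ∈ {𝒜 | 𝒜 ⊆ D ∧ 𝒜.Pairwise Inc} := by
      refine ⟨Set.insert_subset ⟨h1, h2⟩ h𝒜.prop.1, ?_⟩
      refine h𝒜.prop.2.insert fun q hq _ => ⟨hcon q hq, (hcon q hq).symm⟩
    have hmem : (F1, G1) ∈ 𝒜 := by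
      rw [h𝒜.eq_of_subset hins (Set.subset_insert _ _)]
      exact Set.mem_insert _ _
    have := hcon _ hmem
    exact Set.disjoint_left.1 this (hA F1 G1 h1).nonempty.some_mem
      (hA F1 G1 h1).nonempty.some_mem
  obtain ⟨n, hn, hn'⟩ := Set.not_disjoint_iff.1 hcomp
  refine ⟨p.1, p.2, (h𝒜.prop.1 hp).1, ?_, ?_, ?_, ?_, (h𝒜.prop.1 hp).2⟩
  · intro a ha
    exact mem_iUnion₂.2 ⟨p, hp, Or.inl ha⟩
  · intro a ha
    exact mem_iUnion₂.2 ⟨p, hp, Or.inr ha⟩
  · rw [Finset.disjoint_left]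
    intro a ha ha'
    exact hn'.2 a ha' (hn.1 a (hF ha))
  · rw [Finset.disjoint_left]
    intro a ha ha'
    exact hn.2 a (hG ha') (hn'.1 a ha)

theorem Supp.inter (hN : Small A N) {S : Set Λ} {X Y : Set ℕ} (hX : Supp A N S X)
    (hY : Supp A N S Y) : Supp A N S (X ∩ Y) := by
  intro F G hFG
  obtain ⟨F1, G1, h1, h2, h3, h4, h5, h6⟩ := hX F G hFG
  obtain ⟨F2, G2, k1, k2, k3, k4, k5, k6⟩ := hY (F ∪ F1) (G ∪ G1) (by
    rw [Finset.disjoint_union_left, Finset.disjoint_union_right, Finset.disjoint_union_right]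
    exact ⟨⟨hFG, h4⟩, h5, h1⟩)
  rw [Finset.disjoint_union_left] at k4
  rw [Finset.disjoint_union_right] at k5
  refine ⟨F1 ∪ F2, G1 ∪ G2, ?_, ?_, ?_, ?_, ?_, ?_⟩
  · rw [Finset.disjoint_union_left, Finset.disjoint_union_right, Finset.disjoint_union_right]
    exact ⟨⟨h1, k4.2⟩, k5.2, k1⟩
  · rw [Finset.coe_union]; exact union_subset h2 k2
  · rw [Finset.coe_union]; exact union_subset h3 k3
  · rw [Finset.disjoint_union_right]; exact ⟨h4, k4.1⟩
  · rw [Finset.disjoint_union_left]; exact ⟨h5, k5.1⟩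
  · have c1 : cell A (F1 ∪ F2) (G1 ∪ G2) ⊆ cell A F1 G1 :=
      cell_mono Finset.subset_union_left Finset.subset_union_left
    have c2 : cell A (F1 ∪ F2) (G1 ∪ G2) ⊆ cell A F2 G2 :=
      cell_mono Finset.subset_union_right Finset.subset_union_right
    rcases h6 with h6 | h6
    · rcases k6 with k6 | k6
      · left
        refine hN.1 _ (hN.2.1 _ h6 _ k6) _ ?_
        rintro n ⟨hn, hn'⟩
        by_cases hx : n ∈ X
        · exact Or.inr ⟨c2 hn, fun hy => hn' ⟨hx, hy⟩⟩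
        · exact Or.inl ⟨c1 hn, hx⟩
      · right
        refine hN.1 _ k6 _ ?_
        rintro n ⟨hn, hn'⟩
        exact ⟨c2 hn, hn'.2⟩
    · right
      refine hN.1 _ h6 _ ?_
      rintro n ⟨hn, hn'⟩
      exact ⟨c1 hn, hn'.1⟩

/-- A set decided by `S` which is not in `N` includes, modulo `N`, a cell which only uses indices
from `S`; so it is independent of the indices outside `S`. -/
theorem Supp.inter_cell (hN : Small A N) (hmax : ∀ N', Small A N' → N ⊆ N' → N' = N)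
    {S : Set Λ} {X : Set ℕ} (hX : Supp A N S X) (hXN : X ∉ N) {G : Finset Λ}
    (hG : ∀ a ∈ G, a ∉ S) : X ∩ cell A ∅ G ∉ N := by
  obtain ⟨F0, G0, h1, h2⟩ := dense_cells hN hmax hXN
  obtain ⟨F1, G1, k1, k2, k3, k4, k5, k6⟩ := hX F0 G0 h1
  have h3 : cell A F1 G1 \ X ∈ N := by
    refine k6.resolve_right fun h => ?_
    refine hN.2.2.2 (F0 ∪ F1) (G0 ∪ G1) ?_ ?_
    · rw [Finset.disjoint_union_left, Finset.disjoint_union_right, Finset.disjoint_union_right]
      exact ⟨⟨h1, k4⟩, k5, k1⟩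
    · refine hN.1 _ (hN.2.1 _ h2 _ h) _ fun n hn => ?_
      by_cases hx : n ∈ X
      · exact Or.inr ⟨cell_mono Finset.subset_union_right Finset.subset_union_right hn, hx⟩
      · exact Or.inl ⟨cell_mono Finset.subset_union_left Finset.subset_union_left hn, hx⟩
  intro h
  refine hN.2.2.2 F1 (G1 ∪ G) ?_ ?_
  · rw [Finset.disjoint_union_right]
    refine ⟨k1, Finset.disjoint_left.2 fun a ha ha' => hG a ha' (k2 ha)⟩
  · refine hN.1 _ (hN.2.1 _ h3 _ h) _ fun n hn => ?_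
    by_cases hx : n ∈ X
    · exact Or.inr ⟨hx, by simp, fun a ha => hn.2 a (Finset.mem_union_right _ ha)⟩
    · exact Or.inl ⟨cell_mono (Finset.Subset.refl _) Finset.subset_union_left hn, hx⟩

end Cells

/-! ### Ultrafilters and ideals -/

theorem isMaximal_of_ultrafilter (u : Ultrafilter ℕ) (hu : ∀ X : Set ℕ, X.Finite → Xᶜ ∈ u) :
    IsMaximalIdeal {X | Xᶜ ∈ u} := by
  refine ⟨⟨?_, ?_, hu, ?_⟩, ?_⟩
  · intro X hX Y hY
    exact Filter.mem_of_superset hX (compl_subset_compl.2 hY)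
  · intro X hX Y hY
    show (X ∪ Y)ᶜ ∈ u
    rw [compl_union]
    exact Filter.inter_mem hX hY
  · intro h
    have h' : (Set.univ : Set ℕ)ᶜ ∈ u := h
    rw [compl_univ] at h'
    exact Filter.empty_notMem u.1 h'
  · intro I' hI' hsub
    refine Subset.antisymm (fun X hX => ?_) hsub
    by_contra hcon
    have h1 : X ∈ u := by
      by_contra h2
      exact hcon (Ultrafilter.compl_mem_iff_notMem.2 h2)
    have h3 : Xᶜ ∈ I' := hsub (by
      show Xᶜᶜ ∈ u
      rwa [compl_compl])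
    exact hI'.2.2.2 (by
      have := hI'.2.1 X hX _ h3
      rwa [union_compl_self] at this)

/-! ### The main construction -/

/-- the well-ordered set `ω₁` -/
abbrev W : Type := (ℵ₁ : Cardinal.{0}).ord.ToType

theorem mk_W : #W = ℵ₁ := mk_ord_toType _

theorem exists_ub {S : Set W} (hS : S.Countable) : ∃ a : W, ∀ b ∈ S, b < a := by
  have h1 : #S < ℵ₁ := lt_of_le_of_lt hS.le_aleph0 aleph0_lt_aleph_one
  by_contra hcon
  push Not at hcon
  have h2 : (Set.univ : Set W) ⊆ ⋃ b ∈ S, Iic b := by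
    intro a _
    obtain ⟨b, hb, hab⟩ := hcon a
    exact mem_iUnion₂.2 ⟨b, hb, hab⟩
  have h3 : (Set.univ : Set W).Countable := by
    refine Set.Countable.mono h2 (hS.biUnion fun b _ => ?_)
    rw [← le_aleph0_iff_set_countable]
    have h4 : #(Iio b) ≤ ℵ₀ := by
      rw [← Order.lt_succ_iff, succ_aleph0]
      have h6 := mk_Iio_lt b (by rw [mk_W]; exact (Ordinal.type_toType _).symm)
      exact h6.trans_eq mk_W
    have h5 : (Iio b).Countable := le_aleph0_iff_set_countable.1 h4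
    rw [← Iio_insert]
    exact (h5.insert b).le_aleph0
  have h4 := h3.le_aleph0
  rw [mk_univ, mk_W] at h4
  exact absurd h4 (not_le.2 aleph0_lt_aleph_one)

/-- the index set -/
abbrev Idx : Type := W ⊕ (ℕ → Bool)

theorem exists_indep : ∃ A : Idx → Set ℕ, Indep A := by
  have hc : #Idx ≤ #(ℕ → Bool) := by
    have h1 : #(ℕ → Bool) = 𝔠 := by simp
    rw [mk_sum, lift_id, lift_id, mk_W, h1]
    exact (add_le_add aleph_one_le_continuum le_rfl).trans continuum_add_self.le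
  obtain ⟨e⟩ := (Cardinal.le_def _ _).1 hc
  have hd : Nonempty ((ℕ × Finset (List Bool)) ≃ ℕ) := by
    rw [← Cardinal.eq, mk_nat]
    exact mk_eq_aleph0 _
  obtain ⟨d⟩ := hd
  refine ⟨fun i => d '' fam (e i), fun F G h => ?_⟩
  classical
  have h1 := fam_indep (F.map e) (G.map e) (by rwa [Finset.disjoint_map])
  refine (h1.image d.injective.injOn).mono ?_
  rintro _ ⟨p, ⟨hp1, hp2⟩, rfl⟩
  refine ⟨fun a ha => ⟨p, hp1 _ (Finset.mem_map_of_mem e ha), rfl⟩, fun a ha => ?_⟩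
  rintro ⟨q, hq, hqp⟩
  rw [d.injective hqp] at hq
  exact hp2 _ (Finset.mem_map_of_mem e ha) hq

/-- In ZFC: there are a maximal ideal `I` on `ω` with `cof(I) = 𝔠` and an ideal `J ⊆ I` on `ω` with
`cof_J(I) = ℵ₁`. -/
theorem result : ∃ I J : Set (Set ℕ), IsMaximalIdeal I ∧ cof I = 𝔠 ∧ IsIdeal J ∧ J ⊆ I ∧
    cofRel J I = ℵ₁ := by
  classical
  obtain ⟨A, hA⟩ := exists_indep
  obtain ⟨N, hN, hmax⟩ := exists_maximal hA
  -- the ultrafilter `u`
  let f0 : Filter ℕ :=
    { sets := {Y | ∃ F : Finset Idx, cell A F ∅ \ Y ∈ N}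
      univ_sets := ⟨∅, by rw [sdiff_univ]; exact hN.2.2.1 ∅ Set.finite_empty⟩
      sets_of_superset := by
        rintro X Y ⟨F, hF⟩ hXY
        exact ⟨F, hN.1 _ hF _ (sdiff_subset_sdiff_right hXY)⟩
      inter_sets := by
        rintro X Y ⟨F, hF⟩ ⟨G, hG⟩
        refine ⟨F ∪ G, hN.1 _ (hN.2.1 _ hF _ hG) _ ?_⟩
        rintro n ⟨hn, hn'⟩
        by_cases hx : n ∈ X
        · exact Or.inr ⟨cell_mono Finset.subset_union_right (Finset.Subset.refl _) hn,
            fun hy => hn' ⟨hx, hy⟩⟩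
        · exact Or.inl ⟨cell_mono Finset.subset_union_left (Finset.Subset.refl _) hn, hx⟩ }
  have hf0 : f0.NeBot := by
    refine ⟨fun h => ?_⟩
    have : (∅ : Set ℕ) ∈ f0 := by rw [h]; trivial
    obtain ⟨F, hF⟩ := this
    rw [sdiff_empty] at hF
    exact hN.2.2.2 F ∅ (Finset.disjoint_empty_right _) hF
  let u : Ultrafilter ℕ := Ultrafilter.of f0
  have hu0 : ∀ Y, (∃ F : Finset Idx, cell A F ∅ \ Y ∈ N) → Y ∈ u := fun Y hY =>
    Ultrafilter.of_le f0 hY
  have huN : ∀ Y ∈ N, Yᶜ ∈ u := fun Y hY => hu0 _ ⟨∅, by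
    refine hN.1 Y hY _ ?_
    rintro n ⟨_, hn⟩
    exact not_not.1 hn⟩
  have huN' : ∀ X ∈ u, X ∉ N := fun X hX hXN =>
    (Ultrafilter.compl_mem_iff_notMem.1 (huN X hXN)) hX
  have huA : ∀ i, A i ∈ u := fun i => hu0 _ ⟨{i}, by
    refine hN.1 ∅ (hN.2.2.1 ∅ Set.finite_empty) _ ?_
    rintro n ⟨hn, hn'⟩
    exact hn' (hn.1 i (Finset.mem_singleton_self i))⟩
  -- the indices below `a`
  let S : W → Set Idx := fun a => {i | ∀ b, i = Sum.inl b → b < a}
  have hSmono : ∀ a b, a ≤ b → S a ⊆ S b := fun a b hab i hi c hc => (hi c hc).trans_le hab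
  have hSupp : ∀ X, ∃ a, Supp A N (S a) X := by
    intro X
    obtain ⟨T, hT, hTX⟩ := exists_supp hA hN hmax X
    have h1 : {b : W | Sum.inl b ∈ T}.Countable := by
      have : {b : W | Sum.inl b ∈ T} = Sum.inl ⁻¹' T := rfl
      rw [this]
      exact hT.preimage Sum.inl_injective
    obtain ⟨a, ha⟩ := exists_ub h1
    have hTS : T ⊆ S a := by
      intro i hi b hb
      refine ha b ?_
      show Sum.inl b ∈ T
      rw [← hb]
      exact hi
    exact ⟨a, hTX.mono hTS⟩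
  -- the ultrafilters `u a`
  have hua : ∀ a : W, ∃ v : Ultrafilter ℕ, (∀ X ∈ u, Supp A N (S a) X → X ∈ v) ∧
      (∀ X ∈ N, Xᶜ ∈ v) ∧ ∀ b, a ≤ b → (A (Sum.inl b))ᶜ ∈ v := by
    intro a
    let g : Filter ℕ :=
      { sets := {Y | ∃ X ∈ u, Supp A N (S a) X ∧ ∃ G : Finset Idx, (∀ i ∈ G, i ∉ S a) ∧
          (X ∩ cell A ∅ G) \ Y ∈ N}
        univ_sets := ⟨Set.univ, Filter.univ_mem, by
          intro F G _
          refine ⟨∅, ∅, Finset.disjoint_empty_left _, by simp, by simp,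
            Finset.disjoint_empty_right _, Finset.disjoint_empty_left _, Or.inl ?_⟩
          rw [sdiff_univ]
          exact hN.2.2.1 ∅ Set.finite_empty, ∅, by simp, by
            rw [sdiff_univ]; exact hN.2.2.1 ∅ Set.finite_empty⟩
        sets_of_superset := by
          rintro Y Y' ⟨X, h1, h2, G, h3, h4⟩ hYY'
          exact ⟨X, h1, h2, G, h3, hN.1 _ h4 _ (sdiff_subset_sdiff_right hYY')⟩
        inter_sets := by
          rintro Y Y' ⟨X, h1, h2, G, h3, h4⟩ ⟨X', h1', h2', G', h3', h4'⟩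
          refine ⟨X ∩ X', Filter.inter_mem h1 h1', h2.inter hN h2', G ∪ G', ?_,
            hN.1 _ (hN.2.1 _ h4 _ h4') _ ?_⟩
          · intro i hi
            rcases Finset.mem_union.1 hi with hi | hi
            · exact h3 i hi
            · exact h3' i hi
          · rintro n ⟨⟨⟨hn1, hn2⟩, hn3⟩, hn4⟩
            by_cases hy : n ∈ Y
            · exact Or.inr ⟨⟨hn2, cell_mono (Finset.Subset.refl _) Finset.subset_union_right hn3⟩,
                fun hy' => hn4 ⟨hy, hy'⟩⟩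
            · exact Or.inl ⟨⟨hn1, cell_mono (Finset.Subset.refl _) Finset.subset_union_left hn3⟩,
                hy⟩ }
    have hg : g.NeBot := by
      refine ⟨fun h => ?_⟩
      have : (∅ : Set ℕ) ∈ g := by rw [h]; trivial
      obtain ⟨X, h1, h2, G, h3, h4⟩ := this
      rw [sdiff_empty] at h4
      exact h2.inter_cell hN hmax (huN' X h1) h3 h4
    have hgu : ∀ Y ∈ g, Y ∈ Ultrafilter.of g := fun Y hY => Ultrafilter.of_le g hY
    have hsu : Supp A N (S a) Set.univ := by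
      intro F G _
      refine ⟨∅, ∅, Finset.disjoint_empty_left _, by simp, by simp,
        Finset.disjoint_empty_right _, Finset.disjoint_empty_left _, Or.inl ?_⟩
      rw [sdiff_univ]
      exact hN.2.2.1 ∅ Set.finite_empty
    refine ⟨Ultrafilter.of g, fun X hX hXS => hgu X ⟨X, hX, hXS, ∅, by simp, ?_⟩,
      fun X hX => hgu _ ⟨Set.univ, Filter.univ_mem, hsu, ∅, by simp, ?_⟩,
      fun b hb => hgu _ ⟨Set.univ, Filter.univ_mem, hsu, {Sum.inl b}, ?_, ?_⟩⟩
    · refine hN.1 ∅ (hN.2.2.1 ∅ Set.finite_empty) _ ?_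
      rintro n ⟨⟨hn, _⟩, hn'⟩
      exact hn' hn
    · refine hN.1 X hX _ ?_
      rintro n ⟨_, hn⟩
      exact not_not.1 hn
    · intro i hi hiS
      rw [Finset.mem_singleton] at hi
      exact absurd (hiS b hi) (not_lt.2 hb)
    · refine hN.1 ∅ (hN.2.2.1 ∅ Set.finite_empty) _ ?_
      rintro n ⟨⟨_, hn⟩, hn'⟩
      exact hn.2 _ (Finset.mem_singleton_self _) (not_not.1 hn')
  choose v hv1 hv2 hv3 using hua
  have hufin : ∀ X : Set ℕ, X.Finite → Xᶜ ∈ u := fun X hX => huN X (hN.2.2.1 X hX)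
  refine ⟨{X | Xᶜ ∈ u}, {X | Xᶜ ∈ u ∧ ∀ a, Xᶜ ∈ v a}, isMaximal_of_ultrafilter u hufin, ?_, ?_,
    fun X hX => hX.1, ?_⟩
  · -- the cofinality of `I`
    refine le_antisymm ?_ ?_
    · have hmem : #({X | Xᶜ ∈ u} : Set (Set ℕ)) ∈ {κ : Cardinal.{0} | ∃ B : Set (Set ℕ),
          B ⊆ {X | Xᶜ ∈ u} ∧ (∀ X ∈ {X : Set ℕ | Xᶜ ∈ u}, ∃ Y ∈ B, X ⊆ Y) ∧ #B = κ} :=
        ⟨{X | Xᶜ ∈ u}, Subset.rfl, fun X hX => ⟨X, hX, Subset.rfl⟩, rfl⟩
      refine (csInf_le' hmem).trans ?_
      refine (mk_set_le _).trans ?_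
      simp
    · refine le_csInf ⟨_, {X | Xᶜ ∈ u}, Subset.rfl, fun X hX => ⟨X, hX, Subset.rfl⟩, rfl⟩ ?_
      rintro κ ⟨B, hBI, hB, rfl⟩
      by_contra hlt
      rw [not_le] at hlt
      have h1 : ∀ y : ℕ → Bool, ∃ b : B, (A (Sum.inr y))ᶜ ⊆ b.1 := by
        intro y
        obtain ⟨b, hb, hsub⟩ := hB (A (Sum.inr y))ᶜ (by
          show (A (Sum.inr y))ᶜᶜ ∈ u
          rw [compl_compl]
          exact huA _)
        exact ⟨⟨b, hb⟩, hsub⟩
      choose φ hφ using h1
      have hfin : ∀ b : B, (φ ⁻¹' {b}).Finite := by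
        intro b
        have hb : b.1ᶜ ∈ u := hBI b.2
        obtain ⟨F, G, h2, h3⟩ := dense_cells hN hmax (huN' _ hb)
        refine ((F ∪ G).preimage Sum.inr Sum.inr_injective.injOn).finite_toSet.subset ?_
        intro y hy
        rw [Finset.mem_coe, Finset.mem_preimage]
        by_contra hcon
        rw [Finset.mem_union, not_or] at hcon
        refine hN.2.2.2 F (insert (Sum.inr y) G) ?_ (hN.1 _ h3 _ ?_)
        · rw [Finset.disjoint_insert_right]
          exact ⟨hcon.1, h2⟩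
        · intro n hn
          refine ⟨cell_mono (Finset.Subset.refl _) (Finset.subset_insert _ _) hn, fun hnb => ?_⟩
          have h4 : n ∈ (A (Sum.inr y))ᶜ := hn.2 _ (Finset.mem_insert_self _ _)
          have h5 : (A (Sum.inr y))ᶜ ⊆ b.1 := by
            have := hφ y
            rwa [show φ y = b from hy] at this
          exact hnb (h5 h4)
      have h2 : 𝔠 ≤ #B * ℵ₀ := by
        have h3 : #(ℕ → Bool) = 𝔠 := by simp
        rw [← h3]
        have h4 : #(ℕ → Bool) = Cardinal.sum fun b : B => #{y // φ y = b} := by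
          rw [← mk_sigma]
          exact (Equiv.sigmaFiberEquiv φ).symm.cardinal_eq
        rw [h4]
        refine (Cardinal.sum_le_sum _ (fun _ => ℵ₀) fun b => ?_).trans ?_
        · have : Finite {y // φ y = b} := (hfin b)
          exact mk_le_aleph0
        · rw [Cardinal.sum_const']
      have h3 : #B * ℵ₀ < 𝔠 := mul_lt_of_lt aleph0_le_continuum hlt aleph0_lt_continuum
      exact absurd h2 (not_le.2 h3)
  · refine ⟨?_, ?_, ?_, ?_⟩
    · rintro X ⟨hX, hX'⟩ Y hY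
      exact ⟨Filter.mem_of_superset hX (compl_subset_compl.2 hY),
        fun a => Filter.mem_of_superset (hX' a) (compl_subset_compl.2 hY)⟩
    · rintro X ⟨hX, hX'⟩ Y ⟨hY, hY'⟩
      refine ⟨?_, fun a => ?_⟩
      · rw [compl_union]
        exact Filter.inter_mem hX hY
      · rw [compl_union]
        exact Filter.inter_mem (hX' a) (hY' a)
    · intro X hX
      exact ⟨hufin X hX, fun a => hv2 a X (hN.2.2.1 X hX)⟩
    · rintro ⟨h, _⟩
      rw [compl_univ] at h
      exact Filter.empty_notMem u.1 h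
  · -- the relative cofinality
    have hne : ∃ B : Set (Set ℕ), B ⊆ {X | Xᶜ ∈ u} ∧
        (∀ X ∈ {X : Set ℕ | Xᶜ ∈ u}, ∃ Y ∈ B, X \ Y ∈ {X | Xᶜ ∈ u ∧ ∀ a, Xᶜ ∈ v a}) ∧
        #B ≤ ℵ₁ := by
      refine ⟨range fun a : W => (A (Sum.inl a))ᶜ, ?_, ?_, ?_⟩
      · rintro _ ⟨a, rfl⟩
        show (A (Sum.inl a))ᶜᶜ ∈ u
        rw [compl_compl]
        exact huA _
      · intro X hX
        obtain ⟨d, hd⟩ := hSupp Xᶜ
        have e1 : (X \ (A (Sum.inl d))ᶜ)ᶜ = Xᶜ ∪ (A (Sum.inl d))ᶜ := by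
          rw [Set.sdiff_eq, compl_inter, compl_compl]
        refine ⟨_, ⟨d, rfl⟩, ?_, fun a => ?_⟩
        · rw [e1]
          exact Filter.mem_of_superset hX subset_union_left
        · rw [e1]
          rcases le_or_gt a d with had | had
          · exact Filter.mem_of_superset (hv3 a d had) subset_union_right
          · exact Filter.mem_of_superset (hv1 a _ hX (hd.mono (hSmono d a had.le)))
              subset_union_left
      · have := mk_range_le (f := fun a : W => (A (Sum.inl a))ᶜ)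
        rwa [mk_W] at this
    obtain ⟨B0, hB1, hB2, hB3⟩ := hne
    have hmem : #B0 ∈ {κ : Cardinal.{0} | ∃ B : Set (Set ℕ), B ⊆ {X | Xᶜ ∈ u} ∧
        (∀ X ∈ {X : Set ℕ | Xᶜ ∈ u}, ∃ Y ∈ B, X \ Y ∈ {X | Xᶜ ∈ u ∧ ∀ a, Xᶜ ∈ v a}) ∧
        #B = κ} := ⟨B0, hB1, hB2, rfl⟩
    refine le_antisymm ((csInf_le' hmem).trans hB3) ?_
    refine le_csInf ⟨_, B0, hB1, hB2, rfl⟩ ?_
    rintro κ ⟨B, hBI, hB, rfl⟩
    by_contra hlt
    rw [not_le] at hlt
    have hBc : B.Countable := by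
      rw [← le_aleph0_iff_set_countable, ← Order.lt_succ_iff, succ_aleph0]
      exact hlt
    choose d hd using fun b : Set ℕ => hSupp bᶜ
    obtain ⟨a, ha⟩ := exists_ub (hBc.image d)
    obtain ⟨Y, hY, hYJ⟩ := hB (A (Sum.inl a))ᶜ (by
      show (A (Sum.inl a))ᶜᶜ ∈ u
      rw [compl_compl]
      exact huA _)
    have h1 : Yᶜ ∈ v a := hv1 a _ (hBI hY) ((hd Y).mono
      (hSmono _ _ (ha _ (mem_image_of_mem d hY)).le))
    have h2 : ((A (Sum.inl a))ᶜ \ Y)ᶜ ∈ v a := hYJ.2 a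
    have h3 : (A (Sum.inl a))ᶜ ∈ v a := hv3 a a le_rfl
    have h4 := Filter.inter_mem (Filter.inter_mem h1 h2) h3
    refine Filter.empty_notMem (v a).1 ?_
    convert h4 using 1
    ext n
    simp only [mem_empty_iff_false, mem_inter_iff, mem_compl_iff, mem_sdiff, false_iff]
    tauto

end Pool.Agent.Results.MP_f21612_lc.RelativeCofinality
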